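import Pool.Agent.W2helper35.UA.Core
import Pool.Agent.W2helper35.CR.Main

set_option autoImplicit false
set_option linter.unusedSectionVars false

/-!
Algebras of subexponential growth and the Bass trace conjecture for groups of units.
-/

namespace Pool.Agent.W2helper35.UA

open scoped Pointwise
open Polynomial
open Pool.Agent.W2helper35.LC (Subexp SubexpGroup finite_pow)
open Pool.Agent.W2helper35.CR (good_of_no_power bass_at)
open Pool.Agent.H26R2.Bass (Good bass_of_local)

universe u v w z u'

/-- For all finite subsets `S` of the algebra the dimensions of the spaces spanned by the products of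
`n` elements of `S` grow subexponentially. -/
def SubexpAlg (k : Type u) [Field k] (A : Type v) [Ring A] [Algebra k A] : Prop :=
  ∀ S : Set A, S.Finite → Subexp fun n => Module.finrank k (Submodule.span k (S ^ n))

/-- There are additive functions from `A` to `k` which separate the points, such that the values of all
of them on a finitely generated subring of `A` lie in a finitely generated subring of `k` (for instance
the coordinates for a basis with structure constants in a finitely generated subring of `k`). -/
def Coordinates (k : Type u) [Field k] (A : Type v) [Ring A] : Prop :=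
  ∃ (ι : Type v) (f : ι → A →+ k), (∀ a, (∀ l, f l a = 0) → a = 0) ∧
    ∀ S : Set A, S.Finite → ∃ F : Set k, F.Finite ∧
      ∀ b ∈ Subring.closure S, ∀ l, f l b ∈ Subring.closure F

/-- For every finitely generated subring `B` of `A` there is a prime `p` which is not invertible in `R`,
such that no nonzero nilpotent element of `B` is infinitely `p`-divisible in `B`; or `R` has
characteristic zero and there are infinitely many primes `p` with the second property. -/
def Sep (R : Type z) [CommRing R] (A : Type v) [Ring A] : Prop :=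
  ∀ S : Set A, S.Finite →
    (∃ p : ℕ, p.Prime ∧ ¬ IsUnit (p : R) ∧ SepIn (Subring.closure S) p) ∨
    (CharZero R ∧ ∀ M : ℕ, ∃ p : ℕ, M < p ∧ p.Prime ∧ SepIn (Subring.closure S) p)

section good

variable {k : Type u} [Field k] {A : Type v} [Ring A] [Algebra k A]

/-- left multiplication by units -/
noncomputable def act {H : Type w} [Group H] (k : Type u) [Field k] {A : Type v} [Ring A]
    [Algebra k A] (ρ : H →* Aˣ) : H →* Module.End k A :=
  ((Algebra.lmul k A).toMonoidHom.comp (Units.coeHom A)).comp ρ

lemma act_apply {H : Type w} [Group H] (ρ : H →* Aˣ) (h : H) (a : A) :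
    act k ρ h a = (ρ h : A) * a := rfl

lemma not_conj_transcendental {H : Type w} [Group H] (ρ : H →* Aˣ) (hA : SubexpAlg k A) (c : H)
    (hc : ¬ IsAlgebraic k (ρ c : A)) (m : ℕ) (hm : 2 ≤ m) : ¬ IsConj c (c ^ m) := by
  intro h
  obtain ⟨g, hg⟩ := isConj_iff.1 h
  refine dependent (act k ρ) 1 hm hg ?_ ?_
  · intro S hS
    have h1 := hA ((fun h => (ρ h : A)) '' S) (hS.image _)
    have h2 : ∀ n, {y : A | ∃ g ∈ S ^ n, y = act k ρ g 1} = ((fun h => (ρ h : A)) '' S) ^ n := by
      intro n
      have h3 : (fun h => (ρ h : A)) = ((Units.coeHom A).comp ρ : H →* A) := rfl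
      rw [h3, ← Set.image_pow]
      ext y
      constructor
      · rintro ⟨g, hg, rfl⟩
        exact ⟨g, hg, by rw [act_apply, mul_one]; rfl⟩
      · rintro ⟨g, hg, rfl⟩
        exact ⟨g, hg, by rw [act_apply, mul_one]; rfl⟩
    have h4 : (fun n => Module.finrank k (Submodule.span k
        {y : A | ∃ g ∈ S ^ n, y = act k ρ g 1})) =
        fun n => Module.finrank k (Submodule.span k (((fun h => (ρ h : A)) '' S) ^ n)) := by
      funext n
      rw [h2]
    rw [h4]
    exact h1
  · rw [linearIndependent_iff']
    intro s f hf i hi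
    by_contra hne
    apply hc
    refine ⟨∑ j ∈ s, Polynomial.monomial j (f j), ?_, ?_⟩
    · intro h0
      have h1 := congrArg (fun P : k[X] => P.coeff i) h0
      simp only [Polynomial.finsetSum_coeff, Polynomial.coeff_monomial, Polynomial.coeff_zero] at h1
      rw [Finset.sum_ite_eq' s i f, if_pos hi] at h1
      exact hne h1
    · rw [map_sum]
      simp only [aeval_monomial]
      rw [← hf]
      apply Finset.sum_congr rfl
      intro j _
      rw [act_apply, mul_one, map_pow, Units.val_pow_eq_pow_val, Algebra.smul_def]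

lemma nontrivial_of {H : Type w} [Group H] {ρ : H →* Aˣ} {c : H} (hc : ¬ IsOfFinOrder (ρ c)) :
    Nontrivial A := by
  by_contra h
  rw [not_nontrivial_iff_subsingleton] at h
  apply hc
  have : ρ c = 1 := Units.ext (Subsingleton.elim _ _)
  rw [this]
  exact IsOfFinOrder.one

theorem good_of_unit {R : Type z} [CommRing R] [IsDomain R] {H : Type w} [Group H]
    (hH : Group.FG H) (ρ : H →* Aˣ) (c : H) (hc : ¬ IsOfFinOrder (ρ c))
    (h1 : IsAlgebraic k (ρ c : A) ∨ SubexpAlg k A)
    (h2 : (∃ p : ℕ, p.Prime ∧ CharP k p) ∨ Sep R A) : Good R c := by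
  classical
  by_cases halg : IsAlgebraic k (ρ c : A)
  · -- the algebraic case
    have hqu : ∀ (m : ℕ), 2 ≤ m → IsConj c (c ^ m) →
        ∃ q d : ℕ, 1 ≤ q ∧ (((ρ c : Aˣ) : A) ^ q - 1) ^ d = 0 := by
      intro m hm h
      obtain ⟨g, hg⟩ := isConj_iff.1 h
      refine quasi_unipotent (g := ρ g) hm ?_ halg
      rw [← map_inv, ← map_mul, ← map_mul, hg, map_pow]
    rcases h2 with ⟨p, hp, hkp⟩ | h2
    · haveI := nontrivial_of hc
      haveI : Fact p.Prime := ⟨hp⟩
      haveI : CharP A p := charP_of_injective_algebraMap (algebraMap k A).injective p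
      refine good_of_no_power c fun m hm h => ?_
      obtain ⟨q, d, hq, hd⟩ := hqu m hm h
      exact hc (finite_order_of_unipotent p hq hd)
    · obtain ⟨T, hT⟩ := (Group.fg_iff_subgroup_fg (⊤ : Subgroup H)).1 (by
        exact (Group.fg_iff_subgroup_fg _).2 (Group.fg_def.1 hH)) 
      set S : Set A := (fun h : H => ((ρ h : Aˣ) : A)) '' ((T : Set H) ∪ (T : Set H)⁻¹) with hS
      have hSfin : S.Finite := (T.finite_toSet.union T.finite_toSet.inv).image _
      have hmem : ∀ h : H, ((ρ h : Aˣ) : A) ∈ Subring.closure S := by
        intro h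
        have hh : h ∈ Subgroup.closure (T : Set H) := by rw [hT]; trivial
        rw [← Subgroup.mem_toSubmonoid, Subgroup.closure_toSubmonoid] at hh
        induction hh using Submonoid.closure_induction with
        | mem x hx => exact Subring.subset_closure ⟨x, hx, rfl⟩
        | one => rw [map_one]; exact one_mem _
        | mul x y _ _ hx hy => rw [map_mul]; exact mul_mem hx hy
      -- the key claim
      have key : ∀ (p J : ℕ), p.Prime → 1 ≤ J → SepIn (Subring.closure S) p →
          ¬ IsConj c (c ^ p ^ J) := by
        intro p J hp hJ hsep h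
        obtain ⟨q, d, hq, hd⟩ := hqu (p ^ J)
          (hp.two_le.trans (Nat.le_self_pow (by omega) p)) h
        obtain ⟨g, hg⟩ := isConj_iff.1 h
        have hu1 : (ρ c) ^ q = 1 := by
          refine unipotent_div (Subring.closure S) (u := (ρ c) ^ q) (g := ρ g) ?_ (hmem g) ?_
            (N := p ^ J) rfl hJ ?_ (d := d) ?_ hsep
          · rw [← map_pow]; exact hmem _
          · rw [← map_inv]; exact hmem _
          · rw [← map_pow, ← map_inv, ← map_mul, ← map_mul, ← map_pow]
            congr 1
            rw [← pow_mul, mul_comm, pow_mul, ← hg, conj_pow]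
          · rw [Units.val_pow_eq_pow_val]; exact hd
        exact hc (isOfFinOrder_iff_pow_eq_one.2 ⟨q, hq, hu1⟩)
      rcases h2 S hSfin with ⟨p, hp, hpR, hsep⟩ | ⟨hR, hinf⟩
      · exact Or.inr (Or.inl ⟨p, hp, hpR, fun j hj => key p j hp hj hsep⟩)
      · refine Or.inr (Or.inr ⟨hR, ?_⟩)
        rintro ⟨M, J, hM, hJ, h⟩
        obtain ⟨p, hMp, hp, hsep⟩ := hinf M
        refine key p J hp hJ hsep (h p ?_)
        rw [Nat.Prime.coprime_iff_not_dvd hp]
        intro h2
        exact absurd (Nat.le_of_dvd (by omega) h2) (by omega)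
  · exact good_of_no_power c fun m hm =>
      not_conj_transcendental ρ (h1.resolve_left halg) c halg m hm

end good

section families

variable {k : Type u} [Field k]

lemma span_finite {A : Type v} [Ring A] [Algebra k A] {S : Set A} (hS : S.Finite) (n : ℕ) :
    Module.Finite k (Submodule.span k (S ^ n)) :=
  Module.Finite.span_of_finite k (finite_pow hS n)

theorem SubexpAlg.matrix {A : Type v} [Ring A] [Algebra k A] (hA : SubexpAlg k A) (n : ℕ) :
    SubexpAlg k (Matrix (Fin n) (Fin n) A) := by
  classical
  intro S hS
  set E : Set A := ⋃ M ∈ S, Set.range fun p : Fin n × Fin n => M p.1 p.2 with hE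
  have hEfin : E.Finite := hS.biUnion fun M _ => Set.finite_range _
  have key : ∀ t : ℕ, ∀ M ∈ S ^ t, ∀ i j, M i j ∈ Submodule.span k (E ^ t) := by
    intro t
    induction t with
    | zero =>
      intro M hM i j
      rw [pow_zero] at hM
      rw [Set.mem_one.1 hM, Matrix.one_apply]
      split_ifs
      · exact Submodule.subset_span (by simp)
      · exact zero_mem _
    | succ t ih =>
      intro M hM i j
      rw [pow_succ] at hM
      obtain ⟨M₁, h1, M₂, h2, rfl⟩ := hM
      rw [pow_succ, ← Submodule.span_mul_span]
      show (M₁ * M₂) i j ∈ _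
      rw [Matrix.mul_apply]
      exact Submodule.sum_mem _ fun l _ => Submodule.mul_mem_mul (ih M₁ h1 i l)
        (Submodule.subset_span (Set.mem_biUnion h2 ⟨(l, j), rfl⟩))
  refine (hA E hEfin).pow ((n : ℝ) ^ 2) (by positivity) 1 fun t => ?_
  have hfE := span_finite (k := k) hEfin t
  have hfS := span_finite (k := k) hS t
  let f : Submodule.span k (S ^ t) →ₗ[k] (Fin n × Fin n → Submodule.span k (E ^ t)) :=
    LinearMap.pi fun p => LinearMap.codRestrict _
      ((LinearMap.proj p.2).comp ((LinearMap.proj p.1).comp
        (Submodule.span k (S ^ t)).subtype : _ →ₗ[k] (Fin n → A))) (by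
          intro x
          obtain ⟨x, hx⟩ := x
          show x p.1 p.2 ∈ Submodule.span k (E ^ t)
          induction hx using Submodule.span_induction with
          | mem M hM => exact key t M hM _ _
          | zero => exact zero_mem _
          | add a b _ _ ha hb => exact add_mem ha hb
          | smul r a _ ha => exact Submodule.smul_mem _ r ha)
  have hf : Function.Injective f := by
    intro x y h
    apply Subtype.ext
    ext i j
    exact congrArg Subtype.val (congrFun h (i, j))
  have h1 := LinearMap.finrank_le_finrank_of_injective hf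
  rw [Module.finrank_pi_fintype, Finset.sum_const, Finset.card_univ, Fintype.card_prod,
    Fintype.card_fin, smul_eq_mul] at h1
  rw [pow_one, pow_two]
  have h2 : (Module.finrank k (Submodule.span k (S ^ t)) : ℝ) ≤
      (n * n : ℝ) * Module.finrank k (Submodule.span k (E ^ t)) := by
    exact_mod_cast h1
  refine h2.trans (mul_le_mul_of_nonneg_left (by linarith) (by positivity))

theorem subexp_groupAlgebra {Λ : Type v} [Group Λ] (hΛ : SubexpGroup Λ) :
    SubexpAlg k (MonoidAlgebra k Λ) := by
  classical
  intro S hS
  set T : Set Λ := ⋃ x ∈ S, (x.coeff.support : Set Λ) with hT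
  have hTfin : T.Finite := hS.biUnion fun x _ => x.coeff.support.finite_toSet
  intro ε hε n₀
  obtain ⟨n, hn, hb⟩ := hΛ T hTfin ε hε n₀
  refine ⟨n, hn, le_trans ?_ hb⟩
  have h1 : S ⊆ Submodule.span k ((MonoidAlgebra.of k Λ) '' T) := by
    intro x hx
    have h2 : x = ∑ g ∈ x.coeff.support, x.coeff g • MonoidAlgebra.of k Λ g := by
      apply MonoidAlgebra.ext
      apply Finsupp.ext
      intro h
      simp [MonoidAlgebra.of_apply, Finsupp.single_apply]
    show x ∈ Submodule.span k ((MonoidAlgebra.of k Λ) '' T)
    rw [h2]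
    exact Submodule.sum_mem _ fun g hg => Submodule.smul_mem _ _
      (Submodule.subset_span ⟨g, Set.mem_biUnion hx hg, rfl⟩)
  have h2 : Submodule.span k (S ^ n) ≤ Submodule.span k ((MonoidAlgebra.of k Λ) '' (T ^ n)) := by
    rw [Set.image_pow, ← Submodule.span_pow, ← Submodule.span_pow]
    exact pow_le_pow_left' (Submodule.span_le.2 h1) n
  have hfin : ((MonoidAlgebra.of k Λ) '' (T ^ n)).Finite := (finite_pow hTfin n).image _
  haveI : Module.Finite k (Submodule.span k ((MonoidAlgebra.of k Λ) '' (T ^ n))) :=
    Module.Finite.span_of_finite k hfin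
  have h3 := Submodule.finrank_mono h2
  haveI : Fintype ((MonoidAlgebra.of k Λ) '' (T ^ n)) := hfin.fintype
  have h4 := finrank_span_le_card (R := k) ((MonoidAlgebra.of k Λ) '' (T ^ n))
  have h5 : ((MonoidAlgebra.of k Λ) '' (T ^ n)).toFinset.card ≤ (T ^ n).ncard := by
    rw [← Set.ncard_eq_toFinset_card']
    exact Set.ncard_image_le (finite_pow hTfin n)
  exact_mod_cast h3.trans (h4.trans h5)

theorem sep_of_coordinates [CharZero k] {A : Type v} [Ring A] (hA : Coordinates k A)
    (R : Type z) [CommRing R] [CharZero R] : Sep R A := by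
  classical
  intro S hS
  refine Or.inr ⟨inferInstance, fun M => ?_⟩
  obtain ⟨ι, f, hf, hfin⟩ := hA
  obtain ⟨F, hF, hSF⟩ := hfin S hS
  obtain ⟨p, hp, hMp, I, hpI, -, hI⟩ := Pool.Agent.H26R2.IdemLI.exists_ideal hF.toFinset M
  refine ⟨p, hMp, hp, ?_⟩
  intro z hz _ hdiv
  have hle : ∀ a ∈ Subring.closure F, a ∈ Algebra.adjoin ℤ (hF.toFinset : Set k) := by
    intro a ha
    have h1 : Subring.closure F ≤ (Algebra.adjoin ℤ (hF.toFinset : Set k)).toSubring := by
      rw [Subring.closure_le]
      intro x hx
      exact Algebra.subset_adjoin (by simpa using hx)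
    exact h1 ha
  apply hf
  intro l
  have h2 := hI ⟨f l z, hle _ (hSF z hz l)⟩ (by
    intro t
    obtain ⟨b, hb, hzb⟩ := hdiv t
    have h3 : (⟨f l z, hle _ (hSF z hz l)⟩ : Algebra.adjoin ℤ (hF.toFinset : Set k)) =
        ((p : ℕ) : Algebra.adjoin ℤ (hF.toFinset : Set k)) ^ t * ⟨f l b, hle _ (hSF b hb l)⟩ := by
      apply Subtype.ext
      show f l z = _
      conv_lhs => rw [hzb]
      rw [map_nsmul]
      simp [nsmul_eq_mul]
    rw [h3]
    exact Ideal.mul_mem_right _ _ (Ideal.pow_mem_pow hpI t))
  exact congrArg Subtype.val h2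

theorem Coordinates.matrix {A : Type v} [Ring A] (hA : Coordinates k A) (n : ℕ) :
    Coordinates k (Matrix (Fin n) (Fin n) A) := by
  classical
  obtain ⟨ι, f, hf, hfin⟩ := hA
  refine ⟨ULift.{v} (Fin n × Fin n) × ι, fun p =>
    { toFun := fun M => f p.2 (M p.1.down.1 p.1.down.2)
      map_zero' := by simp
      map_add' := fun M N => by simp }, ?_, ?_⟩
  · intro M hM
    ext i j
    exact hf _ fun l => hM (⟨(i, j)⟩, l)
  · intro S hS
    set E : Set A := ⋃ M ∈ S, Set.range fun p : Fin n × Fin n => M p.1 p.2 with hE
    have hEfin : E.Finite := hS.biUnion fun M _ => Set.finite_range _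
    obtain ⟨F, hF, hEF⟩ := hfin E hEfin
    refine ⟨F, hF, fun b hb p => ?_⟩
    refine hEF _ ?_ _
    have key : ∀ b ∈ Subring.closure S, ∀ i j, b i j ∈ Subring.closure E := by
      intro b hb
      induction hb using Subring.closure_induction with
      | mem M hM => exact fun i j => Subring.subset_closure (Set.mem_biUnion hM ⟨(i, j), rfl⟩)
      | zero => exact fun _ _ => zero_mem _
      | one =>
        intro i j
        rw [Matrix.one_apply]
        split_ifs
        · exact one_mem _
        · exact zero_mem _
      | add a b _ _ ha hb => exact fun i j => add_mem (ha i j) (hb i j)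
      | neg a _ ha => exact fun i j => neg_mem (ha i j)
      | mul a b _ _ ha hb =>
        intro i j
        rw [Matrix.mul_apply]
        exact sum_mem fun l _ => mul_mem (ha i l) (hb l j)
    exact key b hb _ _

theorem coordinates_groupAlgebra {k : Type v} [Field k] (Λ : Type v) [Group Λ] :
    Coordinates k (MonoidAlgebra k Λ) := by
  classical
  refine ⟨Λ, fun g =>
    { toFun := fun x => x.coeff g
      map_zero' := by simp
      map_add' := fun x y => by simp }, ?_, ?_⟩
  · intro a ha
    apply MonoidAlgebra.ext
    apply Finsupp.ext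
    intro g
    simpa using ha g
  · intro S hS
    refine ⟨⋃ x ∈ S, (x.coeff.support.image x.coeff : Finset k),
      hS.biUnion fun x _ => Finset.finite_toSet _, ?_⟩
    intro b hb
    set F : Set k := ⋃ x ∈ S, (x.coeff.support.image x.coeff : Finset k) with hF
    show ∀ g, b.coeff g ∈ Subring.closure F
    induction hb using Subring.closure_induction with
    | mem x hx =>
      intro g
      by_cases hg : x.coeff g = 0
      · rw [hg]; exact zero_mem _
      · refine Subring.subset_closure (Set.mem_biUnion hx ?_)
        rw [Finset.mem_coe, Finset.mem_image]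
        exact ⟨g, Finsupp.mem_support_iff.2 hg, rfl⟩
    | zero => intro g; simp
    | one =>
      intro g
      rw [MonoidAlgebra.one_def, MonoidAlgebra.coeff_single, Finsupp.single_apply]
      split_ifs
      · exact one_mem _
      · exact zero_mem _
    | add a b _ _ ha hb =>
      intro g
      simpa using add_mem (ha g) (hb g)
    | neg a _ ha =>
      intro g
      simpa using ha g
    | mul a b _ _ ha hb =>
      intro g
      rw [MonoidAlgebra.coeff_mul]
      refine sum_mem fun x _ => sum_mem fun y _ => ?_
      dsimp only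
      split_ifs
      · exact mul_mem (ha x) (hb y)
      · exact zero_mem _

end families

end Pool.Agent.W2helper35.UA
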