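import Pool.Agent.W2helper35.LC.Grp

set_option autoImplicit false
set_option linter.unusedSectionVars false

/-!
Elements of unit groups of algebras which are conjugate to proper powers.
-/

namespace Pool.Agent.W2helper35.UA

open scoped Pointwise
open Polynomial
open Pool.Agent.W2helper35.LC (Subexp SubexpGroup horner pow_mono_set large_radius finite_pow)

universe u v w z u'

/-- vectors with subexponential growth -/
theorem dependent {k : Type u} [Field k] {V : Type v} [AddCommGroup V] [Module k V] {H : Type w}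
    [Group H] (ρ : H →* Module.End k V) (x : V) {c g : H} {m : ℕ} (hm : 2 ≤ m)
    (hg : g * c * g⁻¹ = c ^ m)
    (hlow : ∀ S : Set H, S.Finite →
      Subexp fun n => Module.finrank k (Submodule.span k {y | ∃ g ∈ S ^ n, y = ρ g x})) :
    ¬ LinearIndependent k fun n : ℕ => ρ (c ^ n) x := by
  intro hli
  set S : Set H := {1, g, g⁻¹, c} with hS
  have hSfin : S.Finite := by simp [hS]
  obtain ⟨n, r, hrn, hbn⟩ := large_radius (hlow S hSfin) hm
  have hmem : ∀ k : ℕ, k < m ^ r → c ^ k ∈ S ^ n := by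
    intro k hk
    have h1 : (1 : H) ∈ S := by simp [hS]
    refine pow_mono_set h1 hrn ?_
    exact horner hm hg S h1 (by simp [hS]) (by simp [hS]) (by simp [hS]) r k hk
  set W := Submodule.span k {y | ∃ g ∈ S ^ n, y = ρ g x} with hW
  have hfin : Module.Finite k W := by
    have h1 : {y | ∃ g ∈ S ^ n, y = ρ g x} = (fun g => ρ g x) '' (S ^ n) := by
      ext y
      constructor
      · rintro ⟨g, hg, rfl⟩; exact ⟨g, hg, rfl⟩
      · rintro ⟨g, hg, rfl⟩; exact ⟨g, hg, rfl⟩
    rw [hW, h1]
    exact Module.Finite.span_of_finite k ((finite_pow hSfin n).image _)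
  let f : Fin (m ^ r) → W := fun i => ⟨ρ (c ^ (i : ℕ)) x,
    Submodule.subset_span ⟨_, hmem i i.2, rfl⟩⟩
  have hf : LinearIndependent k f := by
    have h1 : LinearIndependent k (fun i : Fin (m ^ r) => ρ (c ^ (i : ℕ)) x) :=
      hli.comp (fun i : Fin (m ^ r) => (i : ℕ)) Fin.val_injective
    exact LinearIndependent.of_comp W.subtype h1
  have h2 := hf.fintype_card_le_finrank
  rw [Fintype.card_fin] at h2
  exact absurd hbn (not_lt.2 h2)

section algebraic

variable {k : Type u} [Field k] {A : Type v} [Ring A] [Algebra k A]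

lemma aeval_conj (g : Aˣ) (a : A) (P : k[X]) :
    aeval ((g : A) * a * (g⁻¹ : Aˣ)) P = (g : A) * aeval a P * (g⁻¹ : Aˣ) := by
  induction P using Polynomial.induction_on' with
  | add p q hp hq => rw [map_add, hp, hq, map_add]; noncomm_ring
  | monomial n r =>
    rw [aeval_monomial, aeval_monomial]
    have h1 : ((g : A) * a * (g⁻¹ : Aˣ)) ^ n = (g : A) * a ^ n * (g⁻¹ : Aˣ) := by
      induction n with
      | zero => simp
      | succ n ih =>
        rw [pow_succ, ih, pow_succ]
        have h2 : ((g⁻¹ : Aˣ) : A) * (g : A) = 1 := by simp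
        calc (g : A) * a ^ n * (g⁻¹ : Aˣ) * ((g : A) * a * (g⁻¹ : Aˣ))
            = (g : A) * a ^ n * (((g⁻¹ : Aˣ) : A) * (g : A)) * a * (g⁻¹ : Aˣ) := by noncomm_ring
          _ = (g : A) * (a ^ n * a) * (g⁻¹ : Aˣ) := by rw [h2]; noncomm_ring
    rw [h1, ← mul_assoc, ← mul_assoc, ← mul_assoc, Algebra.commutes r (g : A)]

/-- algebraic elements conjugate to proper powers are quasi-unipotent -/
theorem quasi_unipotent {c g : Aˣ} {m : ℕ} (hm : 2 ≤ m) (hg : g * c * g⁻¹ = c ^ m)
    (hc : IsAlgebraic k (c : A)) : ∃ q d : ℕ, 1 ≤ q ∧ ((c : A) ^ q - 1) ^ d = 0 := by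
  classical
  have hint : IsIntegral k (c : A) := isAlgebraic_iff_isIntegral.1 hc
  set μ := minpoly k (c : A) with hμ
  have hμ0 : μ ≠ 0 := minpoly.ne_zero hint
  -- the power map preserves the set of roots
  have hcomp : μ ∣ μ.comp (X ^ m) := by
    apply minpoly.dvd
    rw [aeval_comp, map_pow, aeval_X]
    have h1 : ((c : A)) ^ m = (g : A) * c * (g⁻¹ : Aˣ) := by
      have := congrArg (fun x : Aˣ => (x : A)) hg
      simpa using this.symm
    rw [h1, aeval_conj, minpoly.aeval, mul_zero, zero_mul]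
  let K := AlgebraicClosure k
  have hroot : ∀ l : K, aeval l μ = 0 → aeval (l ^ m) μ = 0 := by
    intro l hl
    obtain ⟨ν, hν⟩ := hcomp
    have h1 : aeval l (μ.comp (X ^ m)) = 0 := by rw [hν, map_mul, hl, zero_mul]
    rwa [aeval_comp, map_pow, aeval_X] at h1
  have hne : ∀ l : K, aeval l μ = 0 → l ≠ 0 := by
    rintro l hl rfl
    have h0 : μ.coeff 0 = 0 := by
      have h1 := Polynomial.aeval_def (0 : K) μ
      rw [Polynomial.eval₂_at_zero] at h1
      rw [h1] at hl
      exact (map_eq_zero _).1 hl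
    obtain ⟨ν, hν⟩ := Polynomial.X_dvd_iff.2 h0
    have hν0 : ν ≠ 0 := by rintro rfl; rw [mul_zero] at hν; exact hμ0 hν
    have h2 : aeval (c : A) ν = 0 := by
      have h3 : (c : A) * aeval (c : A) ν = 0 := by
        have h4 := minpoly.aeval k (c : A)
        rw [← hμ, hν, map_mul, aeval_X] at h4
        exact h4
      have h5 : ((c⁻¹ : Aˣ) : A) * ((c : A) * aeval (c : A) ν) = 0 := by rw [h3, mul_zero]
      rwa [← mul_assoc, Units.inv_mul, one_mul] at h5
    have h6 : μ.degree ≤ ν.degree := minpoly.degree_le_of_ne_zero k (c : A) hν0 h2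
    rw [hν, Polynomial.degree_mul, Polynomial.degree_X] at h6
    have h7 : ν.degree < 1 + ν.degree := by
      rw [Polynomial.degree_eq_natDegree hν0]
      exact_mod_cast Nat.lt_one_add_iff.2 le_rfl
    exact absurd h6 (not_le.2 h7)
  have hroots : ∀ l : K, aeval l μ = 0 → ∃ q : ℕ, 1 ≤ q ∧ l ^ q = 1 := by
    intro l hl
    have hpow : ∀ i : ℕ, aeval (l ^ m ^ i) μ = 0 := by
      intro i
      induction i with
      | zero => simpa using hl
      | succ i ih =>
        rw [pow_succ, pow_mul]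
        exact hroot _ ih
    have hnot : ¬ Function.Injective fun i : ℕ => (⟨l ^ m ^ i, by
        rw [Polynomial.mem_rootSet]; exact ⟨hμ0, hpow i⟩⟩ : μ.rootSet K) := by
      intro hinj
      haveI := Infinite.of_injective _ hinj
      exact not_finite (μ.rootSet K)
    simp only [Function.Injective] at hnot
    push Not at hnot
    obtain ⟨i, j, hij, hne'⟩ := hnot
    have heq : l ^ m ^ i = l ^ m ^ j := congrArg Subtype.val hij
    have key : ∀ i j : ℕ, i < j → l ^ m ^ i = l ^ m ^ j → ∃ q : ℕ, 1 ≤ q ∧ l ^ q = 1 := by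
      intro i j hlt h
      have hlt' : m ^ i < m ^ j := Nat.pow_lt_pow_right (by omega) hlt
      refine ⟨m ^ j - m ^ i, by omega, ?_⟩
      have h1 : l ^ m ^ i * l ^ (m ^ j - m ^ i) = l ^ m ^ i * 1 := by
        rw [← pow_add, Nat.add_sub_cancel' hlt'.le, mul_one, h]
      exact mul_left_cancel₀ (pow_ne_zero _ (hne l hl)) h1
    rcases lt_or_gt_of_ne hne' with h | h
    · exact key i j h heq
    · exact key j i h heq.symm
  choose! Q hQ1 hQ using hroots
  set T : Finset K := (μ.map (algebraMap k K)).roots.toFinset with hT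
  have hTmem : ∀ l ∈ T, aeval l μ = 0 := by
    intro l hl
    rw [hT, Multiset.mem_toFinset, Polynomial.mem_roots'] at hl
    have := hl.2
    rwa [Polynomial.IsRoot, Polynomial.eval_map_algebraMap] at this
  set q := ∏ l ∈ T, Q l with hq
  have hq1 : 1 ≤ q := Nat.succ_le_of_lt (Finset.prod_pos fun l hl => hQ1 l (hTmem l hl))
  have hlq : ∀ l ∈ T, l ^ q = 1 := by
    intro l hl
    obtain ⟨t, ht⟩ := Finset.dvd_prod_of_mem Q hl
    rw [hq, ht, pow_mul, hQ l (hTmem l hl), one_pow]
  set d := Multiset.card (μ.map (algebraMap k K)).roots with hd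
  refine ⟨q, d, hq1, ?_⟩
  have hdvd : μ ∣ (X ^ q - 1) ^ d := by
    rw [← Polynomial.map_dvd_map' (algebraMap k K)]
    have hsplit : (μ.map (algebraMap k K)).Splits := IsAlgClosed.splits _
    have h1 : μ.map (algebraMap k K) = Polynomial.C (μ.map (algebraMap k K)).leadingCoeff *
        ((μ.map (algebraMap k K)).roots.map fun a => X - Polynomial.C a).prod :=
      hsplit.eq_prod_roots
    have hmonic : (μ.map (algebraMap k K)).leadingCoeff = 1 :=
      ((minpoly.monic hint).map (algebraMap k K)).leadingCoeff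
    rw [hmonic, Polynomial.C_1, one_mul] at h1
    rw [h1, Polynomial.map_pow, Polynomial.map_sub, Polynomial.map_pow, Polynomial.map_X,
      Polynomial.map_one]
    have h2 : ∀ s : Multiset K, (∀ l ∈ s, l ^ q = 1) →
        (s.map fun a => X - Polynomial.C a).prod ∣ (X ^ q - 1 : K[X]) ^ Multiset.card s := by
      intro s
      induction s using Multiset.induction_on with
      | empty => intro _; simp
      | cons a s ih =>
        intro hs
        rw [Multiset.map_cons, Multiset.prod_cons, Multiset.card_cons, pow_succ, mul_comm]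
        apply mul_dvd_mul (ih fun l hl => hs l (Multiset.mem_cons_of_mem hl))
        rw [Polynomial.dvd_iff_isRoot, Polynomial.IsRoot, Polynomial.eval_sub, Polynomial.eval_pow,
          Polynomial.eval_X, Polynomial.eval_one, hs a (Multiset.mem_cons_self a s), sub_self]
    exact h2 _ fun l hl => hlq l (by rw [hT, Multiset.mem_toFinset]; exact hl)
  obtain ⟨ν, hν⟩ := hdvd
  have h3 : aeval (c : A) ((X ^ q - 1 : k[X]) ^ d) = 0 := by
    rw [hν, map_mul, minpoly.aeval, zero_mul]
  simpa using h3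

end algebraic

section charp

variable {A : Type v} [Ring A]

/-- unipotent elements have finite order -/
theorem finite_order_of_unipotent (p : ℕ) [Fact p.Prime] [CharP A p] {c : Aˣ} {q d : ℕ} (hq : 1 ≤ q)
    (h : ((c : A) ^ q - 1) ^ d = 0) : IsOfFinOrder c := by
  rw [isOfFinOrder_iff_pow_eq_one]
  refine ⟨q * p ^ d, Nat.mul_pos hq (pow_pos (Fact.out : p.Prime).pos _), ?_⟩
  apply Units.ext
  rw [Units.val_pow_eq_pow_val, Units.val_one, pow_mul]
  have h1 : ((c : A) ^ q - 1) ^ p ^ d = ((c : A) ^ q) ^ p ^ d - 1 ^ p ^ d :=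
    sub_pow_char_pow_of_commute _ _ (Commute.one_right _)
  have h2 : d ≤ p ^ d := (Nat.lt_pow_self (Fact.out : p.Prime).one_lt).le
  have h3 : ((c : A) ^ q - 1) ^ p ^ d = 0 := by
    obtain ⟨t, ht⟩ := Nat.exists_eq_add_of_le h2
    rw [ht, pow_add, h, zero_mul]
  rw [h3, one_pow] at h1
  exact (sub_eq_zero.1 h1.symm)

end charp

section divisible

variable {A : Type v} [Ring A]

/-- No nonzero nilpotent element of `B` is infinitely divisible by `p` in `B`. -/
def SepIn (B : Subring A) (p : ℕ) : Prop :=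
  ∀ z ∈ B, IsNilpotent z → (∀ t : ℕ, ∃ b ∈ B, z = p ^ t • b) → z = 0

/-- unipotent elements which are conjugate to a power -/
theorem unipotent_div (B : Subring A) {u g : Aˣ} (hu : (u : A) ∈ B) (hg : (g : A) ∈ B)
    (hgi : ((g⁻¹ : Aˣ) : A) ∈ B) {N p J : ℕ} (hN : N = p ^ J) (hJ : 1 ≤ J)
    (hconj : g * u * g⁻¹ = u ^ N) {d : ℕ} (hd : ((u : A) - 1) ^ d = 0) (hsep : SepIn B p) :
    u = 1 := by
  by_contra hne
  -- minimal exponent
  have hex : ∃ e : ℕ, ((u : A) - 1) ^ e = 0 := ⟨d, hd⟩
  classical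
  set e := Nat.find hex with he
  have he0 : ((u : A) - 1) ^ e = 0 := Nat.find_spec hex
  have he2 : 2 ≤ e := by
    by_contra hlt
    have h01 : e = 0 ∨ e = 1 := by omega
    rcases h01 with h | h
    · rw [h, pow_zero] at he0
      apply hne
      apply Units.ext
      have : ∀ a b : A, a = b := fun a b => by
        rw [← one_mul a, ← one_mul b, he0, zero_mul, zero_mul]
      exact this _ _
    · rw [h, pow_one, sub_eq_zero] at he0
      exact hne (Units.ext he0)
  set z := ((u : A) - 1) ^ (e - 1) with hz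
  have hz0 : z ≠ 0 := Nat.find_min hex (by omega)
  have hzu : z * ((u : A) - 1) = 0 := by
    rw [hz, ← pow_succ, Nat.sub_add_cancel (by omega : 1 ≤ e)]
    exact he0
  have hzu' : z * (u : A) = z := by
    rw [mul_sub, mul_one, sub_eq_zero] at hzu
    exact hzu
  have hzpow : ∀ i : ℕ, z * (u : A) ^ i = z := by
    intro i
    induction i with
    | zero => simp
    | succ i ih => rw [pow_succ, ← mul_assoc, ih, hzu']
  have hzB : z ∈ B := pow_mem (sub_mem hu (one_mem B)) _
  have hznil : IsNilpotent z := by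
    refine ⟨2, ?_⟩
    rw [hz, ← pow_mul]
    obtain ⟨t, ht⟩ := Nat.exists_eq_add_of_le (show e ≤ (e - 1) * 2 by omega)
    rw [ht, pow_add, he0, zero_mul]
  -- conjugation
  have hgz : (g : A) * z * ((g⁻¹ : Aˣ) : A) = N ^ (e - 1) • z := by
    have h1 : (g : A) * z * ((g⁻¹ : Aˣ) : A) = ((u : A) ^ N - 1) ^ (e - 1) := by
      have h2 : ∀ n : ℕ, (g : A) * ((u : A) - 1) ^ n * ((g⁻¹ : Aˣ) : A) =
          ((u : A) ^ N - 1) ^ n := by
        intro n
        induction n with
        | zero => simp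
        | succ n ih =>
          rw [pow_succ, pow_succ, ← ih]
          have h3 : (u : A) ^ N = (g : A) * u * ((g⁻¹ : Aˣ) : A) := by
            have := congrArg (fun x : Aˣ => (x : A)) hconj
            simpa using this.symm
          have h4 : ((g⁻¹ : Aˣ) : A) * (g : A) = 1 := by simp
          have h5 : (g : A) * ((g⁻¹ : Aˣ) : A) = 1 := by simp
          rw [h3]
          have h6 : (g : A) * u * ((g⁻¹ : Aˣ) : A) - 1 = (g : A) * (u - 1) * ((g⁻¹ : Aˣ) : A) := by
            rw [mul_sub, mul_one, sub_mul, h5]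
          rw [h6]
          calc (g : A) * (((u : A) - 1) ^ n * ((u : A) - 1)) * ((g⁻¹ : Aˣ) : A)
              = (g : A) * ((u : A) - 1) ^ n * 1 * ((u : A) - 1) * ((g⁻¹ : Aˣ) : A) := by
                noncomm_ring
            _ = (g : A) * ((u : A) - 1) ^ n * ((g⁻¹ : Aˣ) : A) *
                ((g : A) * ((u : A) - 1) * ((g⁻¹ : Aˣ) : A)) := by
                rw [← h4]; noncomm_ring
      exact h2 (e - 1)
    rw [h1]
    -- (u^N - 1) = (u - 1) σ
    set σ : A := ∑ i ∈ Finset.range N, (u : A) ^ i with hσ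
    have h2 : (u : A) ^ N - 1 = ((u : A) - 1) * σ := (mul_geom_sum (u : A) N).symm
    have hcomm : Commute ((u : A) - 1) σ := by
      apply Commute.sub_left
      · exact Commute.sum_right _ _ _ fun i _ => (Commute.refl (u : A)).pow_right i
      · exact Commute.one_left _
    rw [h2, hcomm.mul_pow, ← hz]
    have h3 : z * σ = N • z := by
      rw [hσ, Finset.mul_sum]
      simp [hzpow]
    have h4 : ∀ n : ℕ, z * σ ^ n = N ^ n • z := by
      intro n
      induction n with
      | zero => simp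
      | succ n ih =>
        rw [pow_succ, ← mul_assoc, ih, smul_mul_assoc, h3, smul_smul, ← pow_succ]
    exact h4 _
  -- divisibility
  have hz1 : z = N ^ (e - 1) • (((g⁻¹ : Aˣ) : A) * z * (g : A)) := by
    have h4 : ((g⁻¹ : Aˣ) : A) * (g : A) = 1 := by simp
    calc z = (((g⁻¹ : Aˣ) : A) * (g : A)) * z * (((g⁻¹ : Aˣ) : A) * (g : A)) := by
          rw [h4, one_mul, mul_one]
      _ = ((g⁻¹ : Aˣ) : A) * ((g : A) * z * ((g⁻¹ : Aˣ) : A)) * (g : A) := by noncomm_ring
      _ = N ^ (e - 1) • (((g⁻¹ : Aˣ) : A) * z * (g : A)) := by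
          rw [hgz, mul_smul_comm, smul_mul_assoc]
  have hdivt : ∀ t : ℕ, ∃ b ∈ B, z = (N ^ (e - 1)) ^ t • b ∧
      b = ((g⁻¹ : Aˣ) : A) ^ t * z * (g : A) ^ t := by
    intro t
    induction t with
    | zero => exact ⟨z, hzB, by simp, by simp⟩
    | succ t ih =>
      obtain ⟨b, hb, hzb, hbe⟩ := ih
      refine ⟨((g⁻¹ : Aˣ) : A) ^ (t + 1) * z * (g : A) ^ (t + 1),
        mul_mem (mul_mem (pow_mem hgi _) hzB) (pow_mem hg _), ?_, rfl⟩
      have h5 : b = N ^ (e - 1) • (((g⁻¹ : Aˣ) : A) ^ (t + 1) * z * (g : A) ^ (t + 1)) := by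
        rw [hbe]
        conv_lhs => rw [hz1]
        rw [mul_smul_comm, smul_mul_assoc, pow_succ, pow_succ']
        noncomm_ring
      rw [pow_succ, mul_smul, ← h5]
      exact hzb
  apply hz0
  apply hsep z hzB hznil
  intro t
  obtain ⟨b, hb, hzb, -⟩ := hdivt t
  obtain ⟨s, hs⟩ : p ^ t ∣ (N ^ (e - 1)) ^ t := by
    apply pow_dvd_pow_of_dvd
    rw [hN]
    exact dvd_pow (dvd_pow_self p (by omega)) (by omega)
  refine ⟨s • b, nsmul_mem hb s, ?_⟩
  rw [hzb, hs, mul_smul]

end divisible

end Pool.Agent.W2helper35.UA
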