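import Pool.Agent.W2helper35.UA.Alg

set_option autoImplicit false
set_option linter.unusedSectionVars false

/-!
The Bass trace conjecture for groups of units of algebras.
-/

namespace Pool.Agent.W2helper35.UA

open scoped Pointwise
open Pool.Agent.W2helper35.LC (Subexp SubexpGroup finite_pow)
open Pool.Agent.W2helper35.CR (good_of_no_power bass_at)
open Pool.Agent.H26R2.Bass (Good bass_of_local good_of_hom)

universe u v w z u'

/-- `H` acts linearly on a vector space, and there is a vector of subexponential growth whose images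
under the powers of `c` are linearly independent. -/
def FreeVector (H : Type w) [Group H] (c : H) : Prop :=
  ∃ (k : Type u) (_ : Field k) (V : Type v) (_ : AddCommGroup V) (_ : Module k V)
    (ρ : H →* Module.End k V) (x : V), LinearIndependent k (fun n : ℕ => ρ (c ^ n) x) ∧
    ∀ S : Set H, S.Finite →
      Subexp fun n => Module.finrank k (Submodule.span k {y | ∃ g ∈ S ^ n, y = ρ g x})

/-- `H` is mapped to the group of units of an algebra over a field, the image of `c` has infinite order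
and is algebraic, and the field has positive characteristic or the algebra satisfies `Sep`. -/
def AlgebraicUnit (R : Type z) [CommRing R] (H : Type w) [Group H] (c : H) : Prop :=
  ∃ (k : Type u) (_ : Field k) (A : Type v) (_ : Ring A) (_ : Algebra k A) (ρ : H →* Aˣ),
    ¬ IsOfFinOrder (ρ c) ∧ IsAlgebraic k (ρ c : A) ∧
      ((∃ p : ℕ, p.Prime ∧ CharP k p) ∨ Sep R A)

theorem FreeVector.not_conj {H : Type w} [Group H] {c : H} (hc : FreeVector.{u, v} H c) (m : ℕ)
    (hm : 2 ≤ m) : ¬ IsConj c (c ^ m) := by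
  intro h
  obtain ⟨g, hg⟩ := isConj_iff.1 h
  obtain ⟨k, _, V, _, _, ρ, x, hli, hlow⟩ := hc
  exact dependent ρ x hm hg hlow hli

theorem FreeVector.comap {H : Type w} [Group H] {G : Type u'} [Group G] (φ : H →* G) {c : H}
    (hc : FreeVector.{u, v} G (φ c)) : FreeVector.{u, v} H c := by
  obtain ⟨k, _, V, _, _, ρ, x, hli, hlow⟩ := hc
  refine ⟨k, _, V, _, _, ρ.comp φ, x, ?_, ?_⟩
  · have h1 : (fun n : ℕ => (ρ.comp φ) (c ^ n) x) = fun n : ℕ => ρ (φ c ^ n) x := by
      funext n
      rw [MonoidHom.comp_apply, map_pow]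
    rw [h1]
    exact hli
  · intro S hS
    have h1 := hlow (φ '' S) (hS.image _)
    have h2 : ∀ n, {y | ∃ g ∈ S ^ n, y = (ρ.comp φ) g x} =
        {y | ∃ g ∈ (φ '' S) ^ n, y = ρ g x} := by
      intro n
      rw [← Set.image_pow]
      ext y
      constructor
      · rintro ⟨g, hg, rfl⟩
        exact ⟨φ g, ⟨g, hg, rfl⟩, rfl⟩
      · rintro ⟨_, ⟨g, hg, rfl⟩, rfl⟩
        exact ⟨g, hg, rfl⟩
    have h3 : (fun n => Module.finrank k (Submodule.span k
        {y | ∃ g ∈ S ^ n, y = (ρ.comp φ) g x})) =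
        fun n => Module.finrank k (Submodule.span k {y | ∃ g ∈ (φ '' S) ^ n, y = ρ g x}) := by
      funext n
      rw [h2]
    rw [h3]
    exact h1

theorem AlgebraicUnit.comap {R : Type z} [CommRing R] {H : Type w} [Group H] {G : Type u'} [Group G]
    (φ : H →* G) {c : H} (hc : AlgebraicUnit.{u, v} R G (φ c)) : AlgebraicUnit.{u, v} R H c := by
  obtain ⟨k, _, A, _, _, ρ, h1, h2, h3⟩ := hc
  exact ⟨k, _, A, _, _, ρ.comp φ, h1, h2, h3⟩

theorem AlgebraicUnit.good {R : Type z} [CommRing R] [IsDomain R] {H : Type w} [Group H]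
    (hH : Group.FG H) {c : H} (hc : AlgebraicUnit.{u, v} R H c) : Good R c := by
  obtain ⟨k, _, A, _, _, ρ, h1, h2, h3⟩ := hc
  exact good_of_unit (k := k) hH ρ c h1 (Or.inl h2) h3

theorem sep_of_reduced (R : Type z) [CommRing R] [IsDomain R] (A : Type v) [Ring A] [IsReduced A] :
    Sep R A := by
  intro S _
  have hsep : ∀ p, SepIn (Subring.closure S) p := fun p z _ hz _ => hz.eq_zero
  obtain ⟨q, hq⟩ := CharP.exists R
  by_cases h0 : q = 0
  · subst h0
    refine Or.inr ⟨CharP.charP_to_charZero R, fun M => ?_⟩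
    obtain ⟨p, hp1, hp2⟩ := Nat.exists_infinite_primes (M + 1)
    exact ⟨p, by omega, hp2, hsep p⟩
  · have hqp : q.Prime := (CharP.char_is_prime_or_zero R q).resolve_right h0
    refine Or.inl ⟨q, hqp, ?_, hsep q⟩
    rw [CharP.cast_eq_zero R q]
    exact not_isUnit_zero

/-- units of algebras of subexponential growth -/
theorem unit_cases {k : Type u} [Field k] {A : Type v} [Ring A] [Algebra k A] {R : Type z}
    [CommRing R] (hA : SubexpAlg k A) (h : (∃ p : ℕ, p.Prime ∧ CharP k p) ∨ Sep R A)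
    {Γ : Type w} [Group Γ] (ρ : Γ →* Aˣ) (c : Γ) (hc : ¬ IsOfFinOrder (ρ c)) :
    FreeVector.{u, v} Γ c ∨ AlgebraicUnit.{u, v} R Γ c := by
  by_cases halg : IsAlgebraic k (ρ c : A)
  · exact Or.inr ⟨k, _, A, _, _, ρ, hc, halg, h⟩
  · left
    refine ⟨k, _, A, _, _, act k ρ, 1, ?_, ?_⟩
    · rw [linearIndependent_iff']
      intro s f hf i hi
      by_contra hne
      apply halg
      refine ⟨∑ j ∈ s, Polynomial.monomial j (f j), ?_, ?_⟩
      · intro h0
        have h1 := congrArg (fun P : Polynomial k => P.coeff i) h0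
        simp only [Polynomial.finsetSum_coeff, Polynomial.coeff_monomial, Polynomial.coeff_zero]
          at h1
        rw [Finset.sum_ite_eq' s i f, if_pos hi] at h1
        exact hne h1
      · rw [map_sum]
        simp only [Polynomial.aeval_monomial]
        rw [← hf]
        apply Finset.sum_congr rfl
        intro j _
        rw [act_apply, mul_one, map_pow, Units.val_pow_eq_pow_val, Algebra.smul_def]
    · intro S hS
      have h1 := hA ((fun h => (ρ h : A)) '' S) (hS.image _)
      have h2 : ∀ n, {y : A | ∃ g ∈ S ^ n, y = act k ρ g 1} = ((fun h => (ρ h : A)) '' S) ^ n := by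
        intro n
        have h3 : (fun h => (ρ h : A)) = ((Units.coeHom A).comp ρ : Γ →* A) := rfl
        rw [h3, ← Set.image_pow]
        ext y
        constructor
        · rintro ⟨g, hg, rfl⟩
          exact ⟨g, hg, by rw [act_apply, mul_one]; rfl⟩
        · rintro ⟨g, hg, rfl⟩
          exact ⟨g, hg, by rw [act_apply, mul_one]; rfl⟩
      have h4 : (fun n => Module.finrank k (Submodule.span k
          {y : A | ∃ g ∈ S ^ n, y = act k ρ g 1})) =
          fun n => Module.finrank k (Submodule.span k (((fun h => (ρ h : A)) '' S) ^ n)) := by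
        funext n
        rw [h2]
      rw [h4]
      exact h1

section bass

variable {R : Type z} [CommRing R] [IsDomain R]

theorem bass_unit_at {Γ : Type w} [Group Γ] (c : Γ)
    (hc : FreeVector.{u, v} Γ c ∨ AlgebraicUnit.{u, v} R Γ c) {n : ℕ}
    (A : Matrix (Fin n) (Fin n) (MonoidAlgebra R Γ)) (hA : A * A = A) :
    ∑ i : Fin n, ∑ᶠ (h : Γ) (_ : IsConj h c), (A i i).coeff h = 0 := by
  apply bass_at c _ A hA
  intro H hcH hH
  rcases hc with hc | hc
  · have h1 : FreeVector.{u, v} H (⟨c, hcH⟩ : H) := FreeVector.comap H.subtype hc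
    exact good_of_no_power _ fun m hm => h1.not_conj m hm
  · have h1 : AlgebraicUnit.{u, v} R H (⟨c, hcH⟩ : H) := AlgebraicUnit.comap H.subtype hc
    exact h1.good ((Group.fg_iff_subgroup_fg H).2 hH)

theorem bass_unit {Γ : Type w} [Group Γ]
    (hΓ : ∀ H : Subgroup Γ, H.FG → ∀ h : H, ¬ IsOfFinOrder h →
      FreeVector.{u, v} H h ∨ AlgebraicUnit.{u, v} R H h) {n : ℕ}
    (A : Matrix (Fin n) (Fin n) (MonoidAlgebra R Γ)) (hA : A * A = A) (g : Γ)
    (hg : ¬ IsUnit ((orderOf g : ℕ) : R)) :
    ∑ i : Fin n, ∑ᶠ (h : Γ) (_ : IsConj h g), (A i i).coeff h = 0 := by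
  refine bass_of_local ?_ A hA g hg
  intro H hH h hh
  have hh' : ¬ IsOfFinOrder h := fun hf => hh (isOfFinOrder_iff_pow_eq_one.1 hf)
  rcases hΓ H hH h hh' with h1 | h1
  · exact good_of_no_power h fun m hm => h1.not_conj m hm
  · exact h1.good ((Group.fg_iff_subgroup_fg H).2 hH)

theorem bass_unit' {Γ : Type w} [Group Γ]
    (hΓ : ∀ h : Γ, ¬ IsOfFinOrder h → FreeVector.{u, v} Γ h ∨ AlgebraicUnit.{u, v} R Γ h) {n : ℕ}
    (A : Matrix (Fin n) (Fin n) (MonoidAlgebra R Γ)) (hA : A * A = A) (g : Γ)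
    (hg : ¬ IsUnit ((orderOf g : ℕ) : R)) :
    ∑ i : Fin n, ∑ᶠ (h : Γ) (_ : IsConj h g), (A i i).coeff h = 0 := by
  refine bass_unit.{u, v} (fun H _ h hh => ?_) A hA g hg
  have hh' : ¬ IsOfFinOrder (H.subtype h) := fun hf => hh
    ((Function.Injective.isOfFinOrder_iff (f := H.subtype) H.subtype_injective).1 hf)
  rcases hΓ _ hh' with h1 | h1
  · exact Or.inl (FreeVector.comap H.subtype h1)
  · exact Or.inr (AlgebraicUnit.comap H.subtype h1)

end bass

end Pool.Agent.W2helper35.UA
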